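import Mathlib

/-!
# Interface of the proof of S18875 (Smyth's conjecture over number fields)

Every `S_X : Prop` below is proved in its own file as `theorem X : S_X`.
-/

set_option autoImplicit false
open scoped NumberField

namespace Pool.Agent.N836.SM

/-- Conjugates over `K` with a linear relation satisfy the criteria, or there is a relation between
roots of unity. -/
def S_A : Prop :=
  ∀ (K : Type) [Field K] [NumberField K] (n : ℕ) (a : Fin n → 𝓞 K),
    (∃ α : Fin n → AlgebraicClosure K,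
        (∀ i, α i ≠ 0) ∧ (∀ i j, minpoly K (α i) = minpoly K (α j)) ∧
        ∑ i, algebraMap K (AlgebraicClosure K) (a i : K) * α i = 0) →
    (((∀ v : NumberField.InfinitePlace K, ∀ i : Fin n,
          v (a i : K) < ∑ j ∈ Finset.univ.erase i, v (a j : K)) ∧
      (∀ v : IsDedekindDomain.HeightOneSpectrum (𝓞 K), ∀ i : Fin n,
          ∃ j : Fin n, j ≠ i ∧ v.valuation K (a i : K) ≤ v.valuation K (a j : K))) ∨
     ∃ ω : Fin n → AlgebraicClosure K,
        (∀ i, ∃ m : ℕ, 0 < m ∧ ω i ^ m = 1) ∧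
        ∑ i, algebraMap K (AlgebraicClosure K) (a i : K) * ω i = 0)

/-- A relation between roots of unity gives a relation between conjugates. -/
def S_B : Prop :=
  ∀ (K : Type) [Field K] [NumberField K] (n : ℕ) (a : Fin n → K),
    (∃ ω : Fin n → AlgebraicClosure K,
        (∀ i, ∃ m : ℕ, 0 < m ∧ ω i ^ m = 1) ∧
        ∑ i, algebraMap K (AlgebraicClosure K) (a i) * ω i = 0) →
    ∃ α : Fin n → AlgebraicClosure K,
        (∀ i, α i ≠ 0) ∧ (∀ i j, minpoly K (α i) = minpoly K (α j)) ∧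
        ∑ i, algebraMap K (AlgebraicClosure K) (a i) * α i = 0

/-- A nonzero vector `c` and permutations `π i` with `∑ a_i c_(π_i k) = 0` for all `k` give
conjugates with a linear relation. -/
def S_D : Prop :=
  ∀ (K : Type) [Field K] [NumberField K] (n N : ℕ) (a : Fin n → K) (c : Fin N → K), c ≠ 0 →
    ∀ π : Fin n → Equiv.Perm (Fin N), (∀ k, ∑ i, a i * c (π i k) = 0) →
    ∃ α : Fin n → AlgebraicClosure K,
        (∀ i, α i ≠ 0) ∧ (∀ i j, minpoly K (α i) = minpoly K (α j)) ∧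
        ∑ i, algebraMap K (AlgebraicClosure K) (a i) * α i = 0

/-- Rigidity: discrete Gaussian measures. -/
def S_G : Prop :=
  ∀ (n d N : ℕ) (P : Fin n → Matrix (Fin d) (Fin N) ℤ) (s : Fin N → ℝ),
    (∀ j, 0 < s j) →
    (∀ i, Function.Surjective (P i).mulVec) →
    (∀ (i i' : Fin n) (χ : Fin d → ℝ),
      ∑ j, s j * (∑ k, χ k * (P i k j : ℝ)) ^ 2 = ∑ j, s j * (∑ k, χ k * (P i' k j : ℝ)) ^ 2) →
    ∀ g : Fin n → (Fin d → ℤ) → ℝ,
      (∃ (C : ℝ) (D : ℕ), ∀ i r, |g i r| ≤ C * (1 + ‖r‖) ^ D) →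
      (∀ r, ∑ i, g i r = 0) →
      (∀ z : Fin N → ℤ, 0 ≤ ∑ i, g i ((P i).mulVec z)) →
      ∀ z : Fin N → ℤ, ∑ i, g i ((P i).mulVec z) = 0

/-- The Gaussian weight `exp (-π ∑ z_j² / (t s_j))` on `ℤ^N`. -/
noncomputable def wt {N : ℕ} (s : Fin N → ℝ) (t : ℝ) (z : Fin N → ℤ) : ℝ :=
  Real.exp (-Real.pi * ∑ j, (z j : ℝ) ^ 2 / (t * s j))

/-- The image of the Gaussian weight under the integer matrix `P : ℤ^N → ℤ^d`. -/
noncomputable def marg {N d : ℕ} (P : Matrix (Fin d) (Fin N) ℤ) (s : Fin N → ℝ) (t : ℝ)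
    (r : Fin d → ℤ) : ℝ :=
  ∑' z : Fin N → ℤ, Set.indicator {z | P.mulVec z = r} (wt s t) z

/-- The images of the Gaussian weight under two surjective matrices with the same quadratic form
are exponentially close (Poisson summation). -/
def S_G1 : Prop :=
  ∀ (d N : ℕ) (P P' : Matrix (Fin d) (Fin N) ℤ) (s : Fin N → ℝ),
    (∀ j, 0 < s j) →
    Function.Surjective P.mulVec → Function.Surjective P'.mulVec →
    (∀ χ : Fin d → ℝ,
      ∑ j, s j * (∑ k, χ k * (P k j : ℝ)) ^ 2 = ∑ j, s j * (∑ k, χ k * (P' k j : ℝ)) ^ 2) →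
    ∃ C c : ℝ, 0 < c ∧ ∀ t : ℝ, 1 ≤ t → ∀ r : Fin d → ℤ,
      |marg P s t r - marg P' s t r| ≤ C * Real.exp (-c * t)

/-- Rigidity follows from the exponential closeness of the marginals. -/
def S_G2 : Prop := S_G1 → S_G

/-- Linear programming duality, growth and limit: in the presence of a contraction, rigidity gives
a finite family in `H` with equal marginals. -/
def S_LP : Prop :=
  ∀ (R : Type) [Zero R] (n : ℕ) (size : R → ℝ) (H : Set (Fin n → R)),
    (∀ ρ : ℝ, {r : R | size r ≤ ρ}.Finite) →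
    (∀ r, 0 ≤ size r) →
    (∃ θ C : ℝ, θ < 1 ∧ ∀ (i : Fin n) (r : R), ∃ x ∈ H, x i = r ∧
      ∀ j, j ≠ i → size (x j) ≤ θ * size r + C) →
    (∃ x ∈ H, x ≠ 0) →
    (∀ g : Fin n → R → ℝ,
      (∃ (C : ℝ) (D : ℕ), ∀ i r, |g i r| ≤ C * (1 + size r) ^ D) →
      (∀ r, ∑ i, g i r = 0) →
      (∀ x ∈ H, 0 ≤ ∑ i, g i (x i)) →
      ∀ x ∈ H, ∑ i, g i (x i) = 0) →
    ∃ (N : ℕ) (X : Fin N → Fin n → R), (∀ k, X k ∈ H) ∧ (∃ k, X k ≠ 0) ∧
      ∀ i i' : Fin n, (Finset.univ.val.map fun k => X k i) = Finset.univ.val.map fun k => X k i'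

end Pool.Agent.N836.SM
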