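import Mathlib

/-!
# A cone on which every nonnegative functional vanishes is a subspace
-/

set_option autoImplicit false
open Finset
open scoped NNReal Pointwise

namespace Pool.Agent.N836.SM

theorem cone_lemma {Y : Type*} [NormedAddCommGroup Y] [NormedSpace ℝ Y] [FiniteDimensional ℝ Y]
    (S : Set Y) (h : ∀ ℓ : Y →ₗ[ℝ] ℝ, (∀ y ∈ S, 0 ≤ ℓ y) → ∀ y ∈ S, ℓ y = 0)
    (y0 : Y) (hy0 : y0 ∈ Submodule.span ℝ S) : y0 ∈ Submodule.span ℝ≥0 S := by
  classical
  set C : Submodule ℝ≥0 Y := Submodule.span ℝ≥0 S with hC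
  set W : Submodule ℝ Y := Submodule.span ℝ S with hW
  set CW : Set W := {w | (w : Y) ∈ C} with hCW
  have hsmul : ∀ (a : ℝ) (ha : 0 ≤ a) (y : Y), y ∈ C → a • y ∈ C := by
    intro a ha y hy
    exact C.smul_mem (⟨a, ha⟩ : ℝ≥0) hy
  have hconv : Convex ℝ CW := by
    intro x hx y hy a b ha hb _
    exact C.add_mem (hsmul a ha _ hx) (hsmul b hb _ hy)
  have h0 : (0 : W) ∈ CW := C.zero_mem
  have haff : affineSpan ℝ CW = ⊤ := by
    rw [AffineSubspace.affineSpan_eq_top_iff_vectorSpan_eq_top_of_nonempty ℝ W W ⟨0, h0⟩]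
    rw [eq_top_iff, ← Submodule.span_span_coe_preimage (R := ℝ) (s := S), Submodule.span_le]
    intro w hw
    have : w - 0 ∈ vectorSpan ℝ CW :=
      vsub_mem_vectorSpan ℝ (show w ∈ CW from Submodule.subset_span hw) h0
    simpa using this
  obtain ⟨c0, hc0⟩ := hconv.interior_nonempty_iff_affineSpan_eq_top.mpr haff
  have hint : ∀ (a : ℝ), 0 < a → ∀ w ∈ interior CW, a • w ∈ interior CW := by
    intro a ha w hw
    have h1 : a • interior CW = interior (a • CW) := (interior_smul₀ ha.ne' CW).symm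
    have h2 : a • CW ⊆ CW := by
      rintro _ ⟨x, hx, rfl⟩
      exact hsmul a ha.le _ hx
    have h3 : a • w ∈ a • interior CW := ⟨w, hw, rfl⟩
    rw [h1] at h3
    exact interior_mono h2 h3
  by_contra hcon
  have hx : (⟨y0, hy0⟩ : W) ∉ interior CW := fun hmem =>
    hcon (show (⟨y0, hy0⟩ : W) ∈ CW from interior_subset hmem)
  obtain ⟨f, hf⟩ := geometric_hahn_banach_open_point hconv.interior isOpen_interior hx
  set x : W := ⟨y0, hy0⟩ with hxdef
  -- f is nonpositive on the interior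
  have hf0 : ∀ w ∈ interior CW, f w ≤ 0 := by
    intro w hw
    by_contra hpos
    push Not at hpos
    obtain ⟨N, hN⟩ := exists_nat_gt (|f x| / f w)
    have hN0 : (0 : ℝ) < N + 1 := by positivity
    have h1 := hf _ (hint (N + 1) hN0 w hw)
    rw [map_smul, smul_eq_mul] at h1
    rw [div_lt_iff₀ hpos] at hN
    have h2 := le_abs_self (f x)
    nlinarith
  -- so on the whole cone
  have hf1 : ∀ w ∈ CW, f w ≤ 0 := by
    intro w hw
    have h1 : ∀ t : ℝ, 0 < t → f w + t * f c0 ≤ 0 := by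
      intro t ht
      have h2 : w + t • c0 ∈ interior CW := by
        have h3 := hint t ht c0 hc0
        have h4 : interior CW ⊆ CW := interior_subset
        have h5 : (w +ᵥ interior CW) ⊆ CW := by
          rintro _ ⟨u, hu, rfl⟩
          exact C.add_mem hw (h4 hu)
        have h6 : IsOpen (w +ᵥ interior CW) := isOpen_interior.vadd w
        exact interior_maximal h5 h6 ⟨t • c0, h3, rfl⟩
      have := hf0 _ h2
      simpa using this
    by_contra hpos
    push Not at hpos
    have h2 := hf0 c0 hc0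
    have h3 := h1 (f w / (|f c0| + 1) / 2) (by positivity)
    have h4 : f w / (|f c0| + 1) / 2 * |f c0| ≤ f w / 2 := by
      have h5 : f w / (|f c0| + 1) * |f c0| ≤ f w := by
        rw [div_mul_eq_mul_div, div_le_iff₀ (by positivity)]
        nlinarith [abs_nonneg (f c0)]
      nlinarith
    have h5 : -|f c0| ≤ f c0 := neg_abs_le _
    have h6 : 0 ≤ f w / (|f c0| + 1) / 2 := by positivity
    nlinarith
  -- extend f to Y
  obtain ⟨g, hg⟩ := (f : W →ₗ[ℝ] ℝ).exists_extend
  have hg1 : ∀ w : W, g w = f w := fun w => by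
    have := congrArg (fun φ : W →ₗ[ℝ] ℝ => φ w) hg
    simpa using this
  have hg2 := h (-g) (by
    intro y hy
    have hyW : y ∈ W := Submodule.subset_span hy
    have h1 := hf1 ⟨y, hyW⟩ (show (y : Y) ∈ C from Submodule.subset_span hy)
    have h2 := hg1 ⟨y, hyW⟩
    simp only [LinearMap.neg_apply]
    simp only at h2
    rw [h2]; linarith)
  have hg3 : ∀ y ∈ W, g y = 0 := by
    intro y hy
    refine Submodule.span_induction (p := fun y _ => g y = 0) ?_ ?_ ?_ ?_ hy
    · intro y hy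
      have := hg2 y hy
      simpa using this
    · simp
    · intro a b _ _ ha hb; rw [map_add, ha, hb, add_zero]
    · intro c a _ ha; rw [map_smul, ha, smul_zero]
  have h1 := hf c0 hc0
  rw [← hg1, ← hg1, hg3 _ c0.2, hg3 _ x.2] at h1
  exact lt_irrefl _ h1

/-- Explicit form: if `-y0` is in the span then there are nonnegative coefficients. -/
theorem cone_coeff {Y ι : Type*} [NormedAddCommGroup Y] [NormedSpace ℝ Y] [FiniteDimensional ℝ Y]
    (T : ι → Y) (h : ∀ ℓ : Y →ₗ[ℝ] ℝ, (∀ i, 0 ≤ ℓ (T i)) → ∀ i, ℓ (T i) = 0)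
    (y0 : Y) (hy0 : y0 ∈ Submodule.span ℝ (Set.range T)) :
    ∃ c : ι →₀ ℝ≥0, (c.sum fun i r => (r : ℝ) • T i) = y0 := by
  have h1 := cone_lemma (Set.range T) (by
    rintro ℓ hℓ _ ⟨i, rfl⟩
    exact h ℓ (fun i => hℓ _ ⟨i, rfl⟩) i) y0 hy0
  rw [Finsupp.mem_span_range_iff_exists_finsupp] at h1
  obtain ⟨c, hc⟩ := h1
  exact ⟨c, hc⟩

end Pool.Agent.N836.SM
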