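import Mathlib
import Pool.Agent.N836.SM.Stm

/-!
# Rounding in the mixed space and integer points of hyperplanes
-/

set_option autoImplicit false
open scoped NumberField Classical
open NumberField Finset

namespace Pool.Agent.N836.SM

noncomputable section

variable (K : Type) [Field K] [NumberField K]

/-- The mixed space. -/
abbrev MS (K : Type) [Field K] := mixedEmbedding.mixedSpace K

/-- The embedding of the integers in the mixed space. -/
def emb : 𝓞 K →+* mixedEmbedding.mixedSpace K := (mixedEmbedding K).comp (algebraMap (𝓞 K) K)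

theorem emb_apply (x : 𝓞 K) : emb K x = mixedEmbedding K (x : K) := rfl

variable {K}

theorem norm_place_le (x : mixedEmbedding.mixedSpace K) (w : InfinitePlace K) :
    mixedEmbedding.normAtPlace w x ≤ ‖x‖ := by
  rw [mixedEmbedding.norm_eq_sup'_normAtPlace]
  exact Finset.le_sup' (fun w => mixedEmbedding.normAtPlace w x) (Finset.mem_univ w)

theorem norm_le_of_place {x : mixedEmbedding.mixedSpace K} {B : ℝ}
    (h : ∀ w : InfinitePlace K, mixedEmbedding.normAtPlace w x ≤ B) : ‖x‖ ≤ B := by
  rw [mixedEmbedding.norm_eq_sup'_normAtPlace]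
  exact Finset.sup'_le _ _ (fun w _ => h w)

theorem norm_mul_le' (x y : mixedEmbedding.mixedSpace K) : ‖x * y‖ ≤ ‖x‖ * ‖y‖ := by
  refine norm_le_of_place fun w => ?_
  rw [map_mul]
  exact mul_le_mul (norm_place_le x w) (norm_place_le y w)
    (mixedEmbedding.normAtPlace_nonneg _ _) (norm_nonneg _)

variable (K)

/-- Every element of the mixed space is close to an algebraic integer. -/
theorem exists_round : ∃ C : ℝ, 0 ≤ C ∧ ∀ z : mixedEmbedding.mixedSpace K, ∃ r : 𝓞 K,
    ‖emb K r - z‖ ≤ C := by
  classical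
  refine ⟨∑ i, ‖mixedEmbedding.latticeBasis K i‖, Finset.sum_nonneg fun i _ => norm_nonneg _, ?_⟩
  intro z
  have h1 := (ZSpan.floor (mixedEmbedding.latticeBasis K) z).2
  rw [mixedEmbedding.mem_span_latticeBasis] at h1
  obtain ⟨r, hr⟩ := h1
  refine ⟨r, ?_⟩
  have h2 : emb K r = ZSpan.floor (mixedEmbedding.latticeBasis K) z := hr
  rw [h2, norm_sub_rev]
  exact ZSpan.norm_fract_le (mixedEmbedding.latticeBasis K) z

variable {K}

/-- Rounding of the solutions of `∑ a_j η_j = 0`. -/
theorem round_ker {n : ℕ} (a : Fin n → 𝓞 K) (T : Finset (Fin n)) (m : Fin n) (hm : m ∈ T)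
    (ham : a m ≠ 0) : ∃ C : ℝ, ∀ η : Fin n → mixedEmbedding.mixedSpace K,
      ∑ j ∈ T, emb K (a j) * η j = 0 →
      ∃ y : Fin n → 𝓞 K, ∑ j ∈ T, a j * y j = 0 ∧ ∀ j ∈ T, ‖emb K (y j) - η j‖ ≤ C := by
  classical
  obtain ⟨C, hC0, hC⟩ := exists_round K
  set b : mixedEmbedding.mixedSpace K := mixedEmbedding K ((a m : K)⁻¹) with hb
  have hbm : emb K (a m) * b = 1 := by
    rw [emb_apply, hb, ← map_mul, mul_inv_cancel₀, map_one]
    exact RingOfIntegers.coe_ne_zero_iff.mpr ham
  refine ⟨∑ j, ‖emb K (a j)‖ * C, fun η hη => ?_⟩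
  choose ρ hρ using fun j => hC (b * η j)
  refine ⟨fun j => if j = m then - ∑ j ∈ T.erase m, a j * ρ j else a m * ρ j, ?_, ?_⟩
  · rw [← Finset.add_sum_erase T _ hm]
    simp only [if_true]
    have : ∑ x ∈ T.erase m, a x * (if x = m then - ∑ j ∈ T.erase m, a j * ρ j else a m * ρ x)
        = a m * ∑ j ∈ T.erase m, a j * ρ j := by
      rw [Finset.mul_sum]
      refine Finset.sum_congr rfl fun x hx => ?_
      rw [if_neg (Finset.ne_of_mem_erase hx)]
      ring
    rw [this]
    ring
  · intro j hj
    by_cases hjm : j = m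
    · subst hjm
      simp only [if_true]
      have h1 : emb K (- ∑ i ∈ T.erase j, a i * ρ i) - η j
          = - ∑ i ∈ T.erase j, emb K (a i) * (emb K (ρ i) - b * η i) := by
        have h2 : η j = - ∑ i ∈ T.erase j, emb K (a i) * (b * η i) := by
          rw [← Finset.add_sum_erase T _ hj] at hη
          have h3 : b * (emb K (a j) * η j) = η j := by
            rw [← mul_assoc, mul_comm b, hbm, one_mul]
          have h4 : b * ∑ x ∈ T.erase j, emb K (a x) * η x
              = ∑ i ∈ T.erase j, emb K (a i) * (b * η i) := by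
            rw [Finset.mul_sum]
            exact Finset.sum_congr rfl fun i _ => by ring
          rw [← h4]
          have h5 := congrArg (fun x => b * x) hη
          simp only [mul_add, mul_zero, h3] at h5
          exact eq_neg_of_add_eq_zero_left h5
        rw [map_neg, map_sum, h2]
        simp only [map_mul, mul_sub, Finset.sum_sub_distrib]
        have h6 : ∑ i ∈ T.erase j, emb K (a i) * (b * (- ∑ i ∈ T.erase j, emb K (a i) * (b * η i)))
          = ∑ i ∈ T.erase j, emb K (a i) * (b * (- ∑ i ∈ T.erase j, emb K (a i) * (b * η i))) := rfl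
        ring
      rw [h1, norm_neg]
      calc ‖∑ i ∈ T.erase j, emb K (a i) * (emb K (ρ i) - b * η i)‖
          ≤ ∑ i ∈ T.erase j, ‖emb K (a i) * (emb K (ρ i) - b * η i)‖ := norm_sum_le _ _
        _ ≤ ∑ i ∈ T.erase j, ‖emb K (a i)‖ * C := by
            refine Finset.sum_le_sum fun i _ => (norm_mul_le' _ _).trans ?_
            exact mul_le_mul_of_nonneg_left (hρ i) (norm_nonneg _)
        _ ≤ _ := Finset.sum_le_sum_of_subset_of_nonneg (Finset.subset_univ _)
            fun i _ _ => mul_nonneg (norm_nonneg _) hC0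
    · simp only [if_neg hjm]
      have h1 : emb K (a m * ρ j) - η j = emb K (a m) * (emb K (ρ j) - b * η j) := by
        rw [map_mul, mul_sub, ← mul_assoc (emb K (a m)) b, hbm, one_mul]
      rw [h1]
      refine (norm_mul_le' _ _).trans ?_
      refine (mul_le_mul_of_nonneg_left (hρ j) (norm_nonneg _)).trans ?_
      exact Finset.single_le_sum (f := fun i => ‖emb K (a i)‖ * C)
        (fun i _ => mul_nonneg (norm_nonneg _) hC0) (Finset.mem_univ m)

/-- Balls are finite. -/
theorem finite_ball (ρ : ℝ) : {r : 𝓞 K | ‖emb K r‖ ≤ ρ}.Finite := by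
  have h1 := Embeddings.finite_of_norm_le K ℂ ρ
  refine Set.Finite.of_finite_image (f := fun r : 𝓞 K => (r : K)) (h1.subset ?_)
    (fun x _ y _ h => RingOfIntegers.ext h)
  rintro _ ⟨r, hr, rfl⟩
  refine ⟨r.isIntegral_coe, fun φ => ?_⟩
  have h2 := (norm_place_le (emb K r) (InfinitePlace.mk φ)).trans hr
  rw [emb_apply, mixedEmbedding.normAtPlace_apply, InfinitePlace.apply] at h2
  exact h2

end

end Pool.Agent.N836.SM
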