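import Mathlib
import Pool.Agent.N836.SM.Round

/-!
# The contraction property
-/

set_option autoImplicit false
open scoped NumberField Classical
open NumberField Finset IsDedekindDomain

namespace Pool.Agent.N836.SM

noncomputable section

variable {K : Type} [Field K] [NumberField K]

/-- The nonarchimedean criterion gives membership in the ideal of the other coefficients. -/
theorem mem_span_of_val {n : ℕ} (a : Fin n → 𝓞 K) (i m : Fin n) (hmi : m ≠ i) (ham : a m ≠ 0)
    (h : ∀ v : HeightOneSpectrum (𝓞 K),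
      ∃ j : Fin n, j ≠ i ∧ v.valuation K (a i : K) ≤ v.valuation K (a j : K)) :
    a i ∈ Ideal.span (Set.range fun j : {j : Fin n // j ≠ i} => a j) := by
  set I := Ideal.span (Set.range fun j : {j : Fin n // j ≠ i} => a j) with hI
  have hmem : ∀ j : Fin n, j ≠ i → a j ∈ I := fun j hj => Ideal.subset_span ⟨⟨j, hj⟩, rfl⟩
  by_contra hcon
  have hai : a i ≠ 0 := fun h0 => hcon (h0 ▸ I.zero_mem)
  set J : Ideal (𝓞 K) := Submodule.comap (LinearMap.mulRight (𝓞 K) (a i)) I with hJ
  have hJmem : ∀ r, r ∈ J ↔ r * a i ∈ I := fun r => by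
    rw [hJ, Submodule.mem_comap]; rfl
  have hJ1 : J ≠ ⊤ := by
    intro h1
    have : (1 : 𝓞 K) ∈ J := h1 ▸ Submodule.mem_top
    rw [hJmem, one_mul] at this
    exact hcon this
  obtain ⟨P, hP, hJP⟩ := Ideal.exists_le_maximal J hJ1
  have hmP : a m ∈ P := hJP ((hJmem _).2 (I.mul_mem_right _ (hmem m hmi)))
  have hPbot : P ≠ ⊥ := fun h0 => ham (by rw [h0] at hmP; exact hmP)
  let v : HeightOneSpectrum (𝓞 K) := ⟨P, hP.isPrime, hPbot⟩
  obtain ⟨j, hji, hj⟩ := h v
  rw [HeightOneSpectrum.valuation_of_algebraMap, HeightOneSpectrum.valuation_of_algebraMap] at hj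
  have haj : a j ≠ 0 := by
    intro h0
    rw [h0, map_zero] at hj
    exact v.intValuation_ne_zero _ hai (le_antisymm hj zero_le)
  have hsj : Ideal.span {a j} ≠ 0 := by
    rw [Ne, Ideal.zero_eq_bot, Ideal.span_singleton_eq_bot]; exact haj
  have hfm : FiniteMultiplicity v.asIdeal (Ideal.span {a j}) :=
    FiniteMultiplicity.of_prime_left v.prime hsj
  obtain ⟨Q, hQ, hPQ⟩ := hfm.exists_eq_pow_mul_and_not_dvd
  set e := multiplicity v.asIdeal (Ideal.span {a j}) with he
  have h1 : v.intValuation (a j) ≤ WithZero.exp (-(e : ℤ)) := by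
    rw [v.intValuation_le_pow_iff_dvd, hQ]
    exact Dvd.intro _ rfl
  have h2 : a i ∈ v.asIdeal ^ e := by
    rw [← v.intValuation_le_pow_iff_mem]; exact hj.trans h1
  have h3 : ¬ Q ≤ P := fun hle => hPQ (Ideal.dvd_iff_le.mpr hle)
  obtain ⟨s, hsQ, hsP⟩ := Set.not_subset.mp h3
  apply hsP
  apply hJP
  rw [hJmem]
  have h4 : s * a i ∈ Ideal.span {a j} := by
    rw [hQ, mul_comm]
    exact Ideal.mul_mem_mul hsQ h2
  rw [Ideal.mem_span_singleton] at h4
  obtain ⟨c, hc⟩ := h4
  rw [hc]
  exact I.mul_mem_right _ (hmem j hji)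

/-- A real solution: coordinates of the mixed space. -/
theorem real_solution {n : ℕ} (a : Fin n → 𝓞 K) (i : Fin n)
    (h1 : ∀ v : InfinitePlace K, v (a i : K) < ∑ j ∈ univ.erase i, v (a j : K)) (r : 𝓞 K) :
    ∃ ξ : Fin n → mixedEmbedding.mixedSpace K,
      ∑ j ∈ univ.erase i, emb K (a j) * ξ j = - (emb K (a i) * emb K r) ∧
      ∀ j, ∀ w : InfinitePlace K, mixedEmbedding.normAtPlace w (ξ j) ≤
        w (a i : K) / (∑ j ∈ univ.erase i, w (a j : K)) * w (r : K) := by
  set S : InfinitePlace K → ℝ := fun w => ∑ j ∈ univ.erase i, w (a j : K) with hS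
  have hS0 : ∀ w, 0 < S w := fun w => lt_of_le_of_lt (apply_nonneg w _) (h1 w)
  refine ⟨fun j =>
    (fun w => - ((emb K (a i)).1 w * (emb K r).1 w * (emb K (a j)).1 w /
        (w.1 (a j : K) * S w.1)),
     fun w => - ((emb K (a i)).2 w * (emb K r).2 w * (starRingEnd ℂ) ((emb K (a j)).2 w) /
        ((w.1 (a j : K) * S w.1 : ℝ) : ℂ))), ?_, ?_⟩
  · refine Prod.ext (funext fun w => ?_) (funext fun w => ?_)
    · simp only [Prod.fst_sum, Finset.sum_apply, Prod.fst_mul, Pi.mul_apply, Prod.fst_neg,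
        Pi.neg_apply]
      have h2 : ∀ j, (emb K (a j)).1 w * -((emb K (a i)).1 w * (emb K r).1 w * (emb K (a j)).1 w /
          (w.1 (a j : K) * S w.1)) =
          - ((emb K (a i)).1 w * (emb K r).1 w) * (w.1 (a j : K) / S w.1) := by
        intro j
        have h3 : (emb K (a j)).1 w * (emb K (a j)).1 w = w.1 (a j : K) * w.1 (a j : K) := by
          have h4 : w.1 (a j : K) = |(emb K (a j)).1 w| := by
            rw [← mixedEmbedding.normAtPlace_apply,
              mixedEmbedding.normAtPlace_apply_of_isReal w.2, Real.norm_eq_abs]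
            rfl
          rw [h4, abs_mul_abs_self]
        by_cases h5 : w.1 (a j : K) = 0
        · rw [h5] at h3 ⊢
          have : (emb K (a j)).1 w = 0 := by
            rw [mul_zero] at h3
            exact mul_self_eq_zero.mp h3
          rw [this]; simp
        · have h6 := (hS0 w.1).ne'
          field_simp
          linear_combination (-((emb K (a i)).1 w * (emb K r).1 w)) * h3
      rw [Finset.sum_congr rfl fun j _ => h2 j, ← Finset.mul_sum, ← Finset.sum_div]
      rw [div_self (hS0 w.1).ne', mul_one]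
    · simp only [Prod.snd_sum, Finset.sum_apply, Prod.snd_mul, Pi.mul_apply, Prod.snd_neg,
        Pi.neg_apply]
      have h2 : ∀ j, (emb K (a j)).2 w * -((emb K (a i)).2 w * (emb K r).2 w *
          (starRingEnd ℂ) ((emb K (a j)).2 w) / ((w.1 (a j : K) * S w.1 : ℝ) : ℂ)) =
          - ((emb K (a i)).2 w * (emb K r).2 w) * ((w.1 (a j : K) : ℂ) / (S w.1 : ℂ)) := by
        intro j
        have h3 : (emb K (a j)).2 w * (starRingEnd ℂ) ((emb K (a j)).2 w)
            = (w.1 (a j : K) : ℂ) * (w.1 (a j : K) : ℂ) := by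
          have h4 : w.1 (a j : K) = ‖(emb K (a j)).2 w‖ := by
            rw [← mixedEmbedding.normAtPlace_apply,
              mixedEmbedding.normAtPlace_apply_of_isComplex w.2]
            rfl
          rw [h4, Complex.mul_conj, Complex.normSq_eq_norm_sq]
          push_cast
          ring
        by_cases h5 : w.1 (a j : K) = 0
        · have h6 : (emb K (a j)).2 w = 0 := by
            rw [h5] at h3
            simp only [Complex.ofReal_zero, mul_zero] at h3
            rcases mul_eq_zero.mp h3 with h7 | h7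
            · exact h7
            · exact (map_eq_zero _).mp h7
          rw [h6, h5]; simp
        · have h6 : (S w.1 : ℂ) ≠ 0 := Complex.ofReal_ne_zero.mpr (hS0 w.1).ne'
          have h7 : ((w.1 (a j : K) : ℝ) : ℂ) ≠ 0 := Complex.ofReal_ne_zero.mpr h5
          rw [Complex.ofReal_mul]
          field_simp
          linear_combination (-((emb K (a i)).2 w * (emb K r).2 w)) * h3
      rw [Finset.sum_congr rfl fun j _ => h2 j, ← Finset.mul_sum, ← Finset.sum_div]
      rw [← Complex.ofReal_sum]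
      rw [div_self (Complex.ofReal_ne_zero.mpr (hS0 w.1).ne'), mul_one]
  · intro j w
    have hw1 : ∀ x : 𝓞 K, 0 ≤ w (x : K) := fun x => apply_nonneg w _
    have key : w (a i : K) * w (r : K) * w (a j : K) / (w (a j : K) * S w) ≤
        w (a i : K) / S w * w (r : K) := by
      by_cases h5 : w (a j : K) = 0
      · rw [h5]; simp only [zero_mul, mul_zero, div_zero]
        exact mul_nonneg (div_nonneg (hw1 _) (hS0 w).le) (hw1 _)
      · apply le_of_eq
        have h6 := (hS0 w).ne'
        field_simp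
    obtain hw | hw := w.isReal_or_isComplex
    · rw [mixedEmbedding.normAtPlace_apply_of_isReal hw]
      simp only [norm_neg, norm_div, norm_mul]
      have h4 : ∀ x : 𝓞 K, ‖(emb K x).1 ⟨w, hw⟩‖ = w (x : K) := fun x => by
        rw [← mixedEmbedding.normAtPlace_apply, mixedEmbedding.normAtPlace_apply_of_isReal hw]
        rfl
      rw [h4, h4, h4, Real.norm_of_nonneg (hw1 _), Real.norm_of_nonneg (hS0 w).le]
      exact key
    · rw [mixedEmbedding.normAtPlace_apply_of_isComplex hw]
      have h4 : ∀ x : 𝓞 K, ‖(emb K x).2 ⟨w, hw⟩‖ = w (x : K) := fun x => by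
        rw [← mixedEmbedding.normAtPlace_apply, mixedEmbedding.normAtPlace_apply_of_isComplex hw]
        rfl
      simp only [norm_neg, norm_div, norm_mul, RCLike.norm_conj, Complex.norm_real]
      rw [h4, h4, h4, Real.norm_of_nonneg (hw1 _), Real.norm_of_nonneg (hS0 w).le]
      exact key

/-- **Contraction.** -/
theorem contraction {n : ℕ} (a : Fin n → 𝓞 K)
    (h1 : ∀ v : InfinitePlace K, ∀ i : Fin n, v (a i : K) < ∑ j ∈ univ.erase i, v (a j : K))
    (h2 : ∀ v : HeightOneSpectrum (𝓞 K), ∀ i : Fin n,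
      ∃ j : Fin n, j ≠ i ∧ v.valuation K (a i : K) ≤ v.valuation K (a j : K)) :
    ∃ θ C : ℝ, θ < 1 ∧ ∀ (i : Fin n) (r : 𝓞 K), ∃ x : Fin n → 𝓞 K, ∑ j, a j * x j = 0 ∧
      x i = r ∧ ∀ j, j ≠ i → ‖emb K (x j)‖ ≤ θ * ‖emb K r‖ + C := by
  obtain ⟨w0⟩ := (inferInstance : Nonempty (InfinitePlace K))
  -- the index m
  have hex : ∀ i : Fin n, ∃ m, m ≠ i ∧ a m ≠ 0 := by
    intro i
    by_contra hcon
    push Not at hcon
    have h3 := h1 w0 i
    rw [Finset.sum_eq_zero] at h3
    · exact absurd h3 (not_lt.mpr (apply_nonneg w0 _))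
    · intro j hj
      rw [hcon j (Finset.ne_of_mem_erase hj)]
      simp
  choose m hmi ham using hex
  -- coefficients of the ideal membership
  have hb : ∀ i : Fin n, ∃ b : Fin n → 𝓞 K, ∑ j ∈ univ.erase i, a j * b j = a i := by
    intro i
    have h3 := mem_span_of_val a i (m i) (hmi i) (ham i) (fun v => h2 v i)
    rw [Ideal.mem_span_range_iff_exists_fun] at h3
    obtain ⟨c, hc⟩ := h3
    refine ⟨fun j => if h : j ≠ i then c ⟨j, h⟩ else 0, ?_⟩
    rw [← hc]
    have h4 : ∑ x : {j : Fin n // j ≠ i}, c x * a x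
        = ∑ j ∈ univ.erase i, a j * (if h : j ≠ i then c ⟨j, h⟩ else 0) := by
      refine Finset.sum_bij (fun x _ => x.1) ?_ ?_ ?_ ?_
      · intro x _; exact Finset.mem_erase.mpr ⟨x.2, Finset.mem_univ _⟩
      · intro x _ y _ h; exact Subtype.ext h
      · intro j hj; exact ⟨⟨j, Finset.ne_of_mem_erase hj⟩, Finset.mem_univ _, rfl⟩
      · intro x _
        rw [dif_pos x.2, mul_comm]
    exact h4.symm
  choose b hb using hb
  choose C hC using fun i : Fin n => round_ker a (univ.erase i) (m i)
    (Finset.mem_erase.mpr ⟨hmi i, Finset.mem_univ _⟩) (ham i)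
  -- the ratio
  have hratio : ∃ θ : ℝ, θ < 1 ∧ ∀ (w : InfinitePlace K) (i : Fin n),
      w (a i : K) / (∑ j ∈ univ.erase i, w (a j : K)) ≤ θ := by
    by_cases hne : Nonempty (InfinitePlace K × Fin n)
    · obtain ⟨p, hp⟩ := Finite.exists_max (fun p : InfinitePlace K × Fin n =>
        p.1 (a p.2 : K) / (∑ j ∈ univ.erase p.2, p.1 (a j : K)))
      refine ⟨_, ?_, fun w i => hp (w, i)⟩
      rw [div_lt_one (lt_of_le_of_lt (apply_nonneg p.1 _) (h1 p.1 p.2))]
      exact h1 p.1 p.2
    · exact ⟨0, one_pos, fun w i => absurd ⟨(w, i)⟩ hne⟩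
  obtain ⟨θ, hθ1, hθ⟩ := hratio
  refine ⟨θ, ∑ i, |C i|, hθ1, fun i r => ?_⟩
  obtain ⟨ξ, hξ1, hξ2⟩ := real_solution a i (fun v => h1 v i) r
  obtain ⟨y, hy1, hy2⟩ := hC i (fun j => ξ j + emb K (b i j * r)) (by
    simp only [mul_add, Finset.sum_add_distrib]
    rw [hξ1]
    have : ∑ x ∈ univ.erase i, emb K (a x) * emb K (b i x * r) = emb K (a i) * emb K r := by
      rw [← hb i, map_sum, Finset.sum_mul]
      refine Finset.sum_congr rfl fun x _ => ?_
      rw [map_mul, map_mul]; ring
    rw [this]; ring)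
  refine ⟨fun j => if j = i then r else y j - b i j * r, ?_, by simp, ?_⟩
  · rw [← Finset.add_sum_erase _ _ (Finset.mem_univ i)]
    simp only [if_true]
    have : ∑ x ∈ univ.erase i, a x * (if x = i then r else y x - b i x * r)
        = - (a i * r) := by
      have h5 : ∀ x ∈ univ.erase i, a x * (if x = i then r else y x - b i x * r)
          = a x * y x - (a x * b i x) * r := by
        intro x hx
        rw [if_neg (Finset.ne_of_mem_erase hx)]; ring
      rw [Finset.sum_congr rfl h5, Finset.sum_sub_distrib, hy1, ← Finset.sum_mul, hb i]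
      ring
    rw [this]; ring
  · intro j hj
    simp only [if_neg hj]
    have h5 := hy2 j (Finset.mem_erase.mpr ⟨hj, Finset.mem_univ _⟩)
    have h6 : ‖ξ j‖ ≤ θ * ‖emb K r‖ := by
      refine norm_le_of_place fun w => (hξ2 j w).trans ?_
      refine mul_le_mul (hθ w i) ?_ (apply_nonneg w _) ?_
      · have := norm_place_le (emb K r) w
        rwa [emb_apply, mixedEmbedding.normAtPlace_apply] at this
      · refine le_trans ?_ (hθ w i)
        exact div_nonneg (apply_nonneg w _) (Finset.sum_nonneg fun _ _ => apply_nonneg w _)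
    calc ‖emb K (y j - b i j * r)‖
        = ‖(emb K (y j) - (ξ j + emb K (b i j * r))) + ξ j‖ := by
          congr 1; rw [map_sub]; ring
      _ ≤ C i + θ * ‖emb K r‖ := (norm_add_le _ _).trans (add_le_add h5 h6)
      _ ≤ θ * ‖emb K r‖ + ∑ i, |C i| := by
          rw [add_comm]
          refine add_le_add le_rfl ((le_abs_self _).trans ?_)
          exact Finset.single_le_sum (f := fun i => |C i|) (fun _ _ => abs_nonneg _)
            (Finset.mem_univ i)

end

end Pool.Agent.N836.SM
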