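import Mathlib
import Pool.Agent.N836.SM.Stm

/-!
# Roots of unity give conjugates
-/

set_option autoImplicit false
open scoped NumberField
open NumberField Polynomial IsDedekindDomain

namespace Pool.Agent.N836.SM

/-- There is an element `b` of `K`, `b ≠ 0`, such that all `X^N - b`, `N ≥ 1` are irreducible. -/
theorem exists_eisenstein (K : Type) [Field K] [NumberField K] :
    ∃ b : K, b ≠ 0 ∧ ∀ N : ℕ, 0 < N → Irreducible (X ^ N - C b : K[X]) := by
  obtain ⟨p, hp0, hp⟩ := (Ring.not_isField_iff_exists_prime).mp (RingOfIntegers.not_isField K)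
  let v : HeightOneSpectrum (𝓞 K) := ⟨p, hp, hp0⟩
  obtain ⟨π, hπ⟩ := v.intValuation_exists_uniformizer
  have hmem : π ∈ v.asIdeal := by
    have := (v.intValuation_le_pow_iff_mem π 1).mp (by rw [hπ]; norm_num)
    simpa using this
  have hnot : π ∉ v.asIdeal ^ 2 := by
    intro h
    have := (v.intValuation_le_pow_iff_mem π 2).mpr h
    rw [hπ] at this
    have h2 := WithZero.exp_le_exp.mp this
    norm_num at h2
  have hπ0 : π ≠ 0 := by
    rintro rfl
    exact hnot (Ideal.zero_mem _)
  refine ⟨(π : K), RingOfIntegers.coe_ne_zero_iff.mpr hπ0, fun N hN => ?_⟩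
  have hmonic : (X ^ N - C π : (𝓞 K)[X]).Monic := monic_X_pow_sub_C π hN.ne'
  have hdeg : (X ^ N - C π : (𝓞 K)[X]).natDegree = N := natDegree_X_pow_sub_C
  have heis : (X ^ N - C π : (𝓞 K)[X]).IsEisensteinAt v.asIdeal := by
    refine ⟨?_, ?_, ?_⟩
    · rw [hmonic.leadingCoeff]
      exact fun h => hp.ne_top ((Ideal.eq_top_iff_one _).mpr h)
    · intro n hn
      rw [hdeg] at hn
      rw [coeff_sub, coeff_X_pow, if_neg hn.ne, zero_sub, coeff_C]
      split_ifs with h
      · exact v.asIdeal.neg_mem hmem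
      · simp
    · rw [coeff_sub, coeff_X_pow, if_neg hN.ne, zero_sub, coeff_C_zero]
      intro h
      exact hnot (by simpa using (v.asIdeal ^ 2).neg_mem h)
  have hirr := heis.irreducible hp hmonic.isPrimitive (by rw [hdeg]; exact hN)
  have := (hmonic.irreducible_iff_irreducible_map_fraction_map (K := K)).mp hirr
  simpa using this

theorem partB : S_B := by
  intro K _ _ n a hω
  obtain ⟨ω, hω, hsum⟩ := hω
  choose m hm0 hm using hω
  obtain ⟨b, hb0, hb⟩ := exists_eisenstein K
  set N := ∏ i, m i with hN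
  have hN0 : 0 < N := Finset.prod_pos fun i _ => hm0 i
  have hωN : ∀ i, ω i ^ N = 1 := by
    intro i
    obtain ⟨k, hk⟩ := Finset.dvd_prod_of_mem m (Finset.mem_univ i)
    rw [hN, hk, pow_mul, hm, one_pow]
  obtain ⟨α, hα⟩ := IsAlgClosed.exists_pow_nat_eq (algebraMap K (AlgebraicClosure K) b) hN0
  have hα0 : α ≠ 0 := by
    rintro rfl
    rw [zero_pow hN0.ne'] at hα
    exact hb0 ((map_eq_zero _).mp hα.symm)
  have hmin : ∀ i, minpoly K (ω i * α) = X ^ N - C b := by
    intro i
    refine (minpoly.eq_of_irreducible_of_monic (hb N hN0) ?_ (monic_X_pow_sub_C b hN0.ne')).symm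
    simp [mul_pow, hωN, hα]
  refine ⟨fun i => ω i * α, fun i => mul_ne_zero ?_ hα0, fun i j => ?_, ?_⟩
  · intro h
    have := hm i
    rw [h, zero_pow (hm0 i).ne'] at this
    exact zero_ne_one this
  · rw [hmin, hmin]
  · have : ∑ i, algebraMap K (AlgebraicClosure K) (a i) * (ω i * α)
        = (∑ i, algebraMap K (AlgebraicClosure K) (a i) * ω i) * α := by
      rw [Finset.sum_mul]
      exact Finset.sum_congr rfl fun i _ => by ring
    rw [this, hsum, zero_mul]

end Pool.Agent.N836.SM
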