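import Mathlib

/-!
# Diagonal forms on a hyperplane and the strict polygon inequality
-/

set_option autoImplicit false
open Finset

namespace Pool.Agent.N836.SM

/-- If `A` satisfies the strict polygon inequalities, `∑ α_i = 0` and the diagonal form
`∑ α_i y_i²` is nonnegative on the hyperplane `∑ A_i y_i = 0`, then `α = 0`. -/
theorem polygon {n : ℕ} (A α : Fin n → ℝ) (hA : ∀ i, 0 ≤ A i)
    (hs : ∀ i, A i < ∑ j ∈ univ.erase i, A j) (hα : ∑ i, α i = 0)
    (hpos : ∀ y : Fin n → ℝ, ∑ i, A i * y i = 0 → 0 ≤ ∑ i, α i * y i ^ 2) : ∀ i, α i = 0 := by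
  by_contra hcon
  push Not at hcon
  -- a negative coefficient
  obtain ⟨p, hp⟩ : ∃ p, α p < 0 := by
    by_contra hno
    push Not at hno
    obtain ⟨i, hi⟩ := hcon
    have := (Finset.sum_eq_zero_iff_of_nonneg (fun i _ => hno i)).mp hα i (Finset.mem_univ i)
    exact hi this
  -- the coefficient A p is positive
  have hAp : ∀ q, α q < 0 → 0 < A q := by
    intro q hq
    rcases (hA q).lt_or_eq with h | h
    · exact h
    · exfalso
      have h1 := hpos (fun i => if i = q then 1 else 0) (by
        simp [← h])
      have h2 : ∑ i, α i * (if i = q then (1:ℝ) else 0) ^ 2 = α q := by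
        simp
      rw [h2] at h1
      linarith
  -- the others are nonnegative
  have hother : ∀ q, q ≠ p → 0 ≤ α q := by
    intro q hqp
    by_contra hq
    push Not at hq
    have h1 := hpos (fun i => if i = p then A q else if i = q then - A p else 0) (by
      rw [← Finset.add_sum_erase _ _ (Finset.mem_univ p),
        ← Finset.add_sum_erase (univ.erase p) _ (Finset.mem_erase.mpr ⟨hqp, Finset.mem_univ q⟩)]
      rw [Finset.sum_eq_zero]
      · simp [hqp]; ring
      · intro x hx
        have hx1 : x ≠ q := Finset.ne_of_mem_erase hx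
        have hx2 : x ≠ p := Finset.ne_of_mem_erase (Finset.mem_of_mem_erase hx)
        simp [hx1, hx2])
    rw [← Finset.add_sum_erase _ _ (Finset.mem_univ p),
        ← Finset.add_sum_erase (univ.erase p) _ (Finset.mem_erase.mpr ⟨hqp, Finset.mem_univ q⟩),
        Finset.sum_eq_zero (s := (univ.erase p).erase q)] at h1
    · simp only [if_true, if_neg hqp, add_zero] at h1
      have h2 := hAp p hp
      have h3 := hAp q hq
      have h4 : α p * A q ^ 2 < 0 := mul_neg_of_neg_of_pos hp (by positivity)
      have h5 : α q * (- A p) ^ 2 < 0 := mul_neg_of_neg_of_pos hq (by nlinarith)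
      linarith
    · intro x hx
      have hx1 : x ≠ q := Finset.ne_of_mem_erase hx
      have hx2 : x ≠ p := Finset.ne_of_mem_erase (Finset.mem_of_mem_erase hx)
      simp [hx1, hx2]
  have hp0 := hAp p hp
  set T := univ.erase p with hT
  have hsum : ∑ j ∈ T, α j = - α p := by
    rw [← Finset.add_sum_erase _ _ (Finset.mem_univ p)] at hα
    linarith
  -- the main inequality for every ε > 0
  have main : ∀ ε : ℝ, 0 < ε → (∑ j ∈ T, A j) ^ 2 ≤ A p ^ 2 + (T.card * ε) * (A p ^ 2 / (- α p)) := by
    intro ε hε
    set S := ∑ j ∈ T, A j ^ 2 / (α j + ε) with hS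
    have hden : ∀ j ∈ T, 0 < α j + ε := fun j hj => by
      have := hother j (Finset.ne_of_mem_erase hj)
      linarith
    have hS0 : 0 ≤ S := Finset.sum_nonneg fun j hj => div_nonneg (sq_nonneg _) (hden j hj).le
    have hCS : (∑ j ∈ T, A j) ^ 2 ≤ S * (∑ j ∈ T, (α j + ε)) := by
      have h := Finset.sum_mul_sq_le_sq_mul_sq T (fun j => A j / Real.sqrt (α j + ε))
        (fun j => Real.sqrt (α j + ε))
      have h1 : ∑ j ∈ T, A j / Real.sqrt (α j + ε) * Real.sqrt (α j + ε) = ∑ j ∈ T, A j :=
        Finset.sum_congr rfl fun j hj =>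
          div_mul_cancel₀ _ (Real.sqrt_pos.mpr (hden j hj)).ne'
      have h2 : ∑ j ∈ T, (A j / Real.sqrt (α j + ε)) ^ 2 = S :=
        Finset.sum_congr rfl fun j hj => by
          rw [div_pow, Real.sq_sqrt (hden j hj).le]
      have h3 : ∑ j ∈ T, (Real.sqrt (α j + ε)) ^ 2 = ∑ j ∈ T, (α j + ε) :=
        Finset.sum_congr rfl fun j hj => Real.sq_sqrt (hden j hj).le
      rw [h1, h2, h3] at h
      exact h
    have hSle : (- α p) * S ≤ A p ^ 2 := by
      rcases hS0.lt_or_eq with hS1 | hS1
      · have h1 := hpos (fun i => if i = p then - S / A p else A i / (α i + ε)) (by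
          rw [← Finset.add_sum_erase _ _ (Finset.mem_univ p)]
          have : ∑ x ∈ T, A x * (if x = p then - S / A p else A x / (α x + ε)) = S :=
            Finset.sum_congr rfl fun x hx => by
              rw [if_neg (Finset.ne_of_mem_erase hx)]; ring
          rw [this]
          simp only [if_true]
          field_simp
          ring)
        rw [← Finset.add_sum_erase _ _ (Finset.mem_univ p)] at h1
        have h2 : ∑ x ∈ T, α x * (if x = p then - S / A p else A x / (α x + ε)) ^ 2 ≤ S := by
          refine Finset.sum_le_sum fun x hx => ?_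
          rw [if_neg (Finset.ne_of_mem_erase hx)]
          have hd := hden x hx
          rw [div_pow, ← mul_div_assoc, div_le_div_iff₀ (by positivity) hd]
          nlinarith [mul_nonneg (sq_nonneg (A x)) hd.le, mul_nonneg (sq_nonneg (A x)) hε.le,
            mul_nonneg (mul_nonneg (sq_nonneg (A x)) hd.le) hε.le]
        simp only [if_true] at h1
        have h3 : 0 ≤ α p * (- S / A p) ^ 2 + S := by linarith
        have h4 : α p * (- S / A p) ^ 2 = α p * S * S / A p ^ 2 := by
          field_simp
        rw [h4] at h3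
        have h5 : 0 ≤ (α p * S * S / A p ^ 2 + S) * A p ^ 2 := mul_nonneg h3 (sq_nonneg _)
        have h6 : (α p * S * S / A p ^ 2 + S) * A p ^ 2 = S * (α p * S + A p ^ 2) := by
          field_simp
        rw [h6] at h5
        have h8 : 0 ≤ α p * S + A p ^ 2 := by
          by_contra hneg
          push Not at hneg
          have := mul_neg_of_pos_of_neg hS1 hneg
          linarith
        linarith
      · rw [← hS1]; nlinarith [sq_nonneg (A p)]
    have h1 : ∑ j ∈ T, (α j + ε) = - α p + T.card * ε := by
      rw [Finset.sum_add_distrib, hsum, Finset.sum_const, nsmul_eq_mul]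
    rw [h1] at hCS
    have h2 : S ≤ A p ^ 2 / (- α p) := by
      rw [le_div_iff₀ (by linarith)]; linarith
    have h3 : S * (- α p + T.card * ε) ≤ A p ^ 2 + (T.card * ε) * (A p ^ 2 / (- α p)) := by
      have h4 : (T.card * ε) * S ≤ (T.card * ε) * (A p ^ 2 / (- α p)) :=
        mul_le_mul_of_nonneg_left h2 (by positivity)
      nlinarith
    linarith
  have hlim : (∑ j ∈ T, A j) ^ 2 ≤ A p ^ 2 := by
    apply le_of_forall_pos_le_add
    intro δ hδ
    set B := T.card * (A p ^ 2 / (- α p)) with hB
    have hB0 : 0 ≤ B := mul_nonneg (Nat.cast_nonneg _) (div_nonneg (sq_nonneg _) (by linarith))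
    have h1 := main (δ / (B + 1)) (by positivity)
    have h2 : (T.card * (δ / (B + 1))) * (A p ^ 2 / (- α p)) = B * (δ / (B + 1)) := by
      rw [hB]; ring
    rw [h2] at h1
    have h3 : B * (δ / (B + 1)) ≤ δ := by
      rw [← mul_div_assoc, div_le_iff₀ (by positivity)]
      nlinarith
    linarith
  have h1 := hs p
  have h2 : A p ^ 2 < (∑ j ∈ T, A j) ^ 2 := pow_lt_pow_left₀ h1 hp0.le (by norm_num)
  linarith

end Pool.Agent.N836.SM
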