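import Mathlib
import Pool.Agent.N836.SM.Round
import Pool.Agent.N836.SM.Polygon

/-!
# Quadratic forms which are nonnegative on the integer points of the hyperplane
-/

set_option autoImplicit false
open scoped NumberField Classical
open NumberField Finset

namespace Pool.Agent.N836.SM

noncomputable section

variable {K : Type} [Field K] [NumberField K]


/-- The sum of the forms. -/
def GG {n : ℕ} (B : Fin n → MS K →ₗ[ℝ] MS K →ₗ[ℝ] ℝ) (y : Fin n → MS K) : ℝ := ∑ i, B i (y i) (y i)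

theorem GG_add_sub {n : ℕ} (B : Fin n → MS K →ₗ[ℝ] MS K →ₗ[ℝ] ℝ) (u v : Fin n → MS K) :
    GG B (u + v) + GG B (u - v) = 2 * GG B u + 2 * GG B v := by
  unfold GG
  rw [Finset.mul_sum, Finset.mul_sum, ← Finset.sum_add_distrib, ← Finset.sum_add_distrib]
  refine Finset.sum_congr rfl fun i _ => ?_
  simp only [Pi.add_apply, Pi.sub_apply, map_add, map_sub, LinearMap.add_apply,
    LinearMap.sub_apply]
  ring

theorem GG_smul {n : ℕ} (B : Fin n → MS K →ₗ[ℝ] MS K →ₗ[ℝ] ℝ) (c : ℝ) (u : Fin n → MS K) :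
    GG B (c • u) = c ^ 2 * GG B u := by
  unfold GG
  rw [Finset.mul_sum]
  refine Finset.sum_congr rfl fun i _ => ?_
  simp only [Pi.smul_apply, map_smul, LinearMap.smul_apply, smul_eq_mul]
  ring

theorem continuous_bil (B : MS K →ₗ[ℝ] MS K →ₗ[ℝ] ℝ) : Continuous fun x : MS K => B x x := by
  let B' : MS K →ₗ[ℝ] (MS K →L[ℝ] ℝ) := (LinearMap.toContinuousLinearMap : (MS K →ₗ[ℝ] ℝ) ≃ₗ[ℝ] _).toLinearMap ∘ₗ B
  let B'' : MS K →L[ℝ] (MS K →L[ℝ] ℝ) := LinearMap.toContinuousLinearMap B'
  have h : (fun x : MS K => B x x) = fun x => B'' x x := rfl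
  rw [h]
  exact B''.continuous.clm_apply continuous_id

theorem continuous_GG {n : ℕ} (B : Fin n → MS K →ₗ[ℝ] MS K →ₗ[ℝ] ℝ) : Continuous (GG B) := by
  unfold GG
  refine continuous_finsetSum _ fun i _ => ?_
  exact (continuous_bil (B i)).comp (continuous_apply i)

/-- Nonnegativity passes from the integer points to the real points. -/
theorem GG_nonneg_real {n : ℕ} (a : Fin n → 𝓞 K) (m : Fin n) (ham : a m ≠ 0)
    (B : Fin n → MS K →ₗ[ℝ] MS K →ₗ[ℝ] ℝ)
    (hpos : ∀ x : Fin n → 𝓞 K, ∑ i, a i * x i = 0 → 0 ≤ GG B fun i => emb K (x i))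
    (y : Fin n → MS K) (hy : ∑ i, emb K (a i) * y i = 0) : 0 ≤ GG B y := by
  obtain ⟨C, hC⟩ := round_ker a univ m (Finset.mem_univ m) ham
  have h1 : ∀ N : ℕ, ∃ x : Fin n → 𝓞 K, ∑ j, a j * x j = 0 ∧
      ∀ j, ‖emb K (x j) - (N : ℝ) • y j‖ ≤ C := by
    intro N
    obtain ⟨x, hx1, hx2⟩ := hC (fun j => (N : ℝ) • y j) (by
      have : ∑ j, emb K (a j) * (N : ℝ) • y j = (N : ℝ) • ∑ j, emb K (a j) * y j := by
        rw [Finset.smul_sum]
        refine Finset.sum_congr rfl fun j _ => ?_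
        rw [mul_smul_comm]
      rw [this, hy, smul_zero])
    exact ⟨x, hx1, fun j => hx2 j (Finset.mem_univ j)⟩
  choose x hx1 hx2 using h1
  -- the sequence x N / N tends to y
  have h2 : Filter.Tendsto (fun N : ℕ => fun j => ((N : ℝ)⁻¹) • emb K (x N j)) Filter.atTop
      (nhds y) := by
    rw [tendsto_pi_nhds]
    intro j
    rw [tendsto_iff_norm_sub_tendsto_zero]
    have h3 : Filter.Tendsto (fun N : ℕ => (N : ℝ)⁻¹ * C) Filter.atTop (nhds 0) := by
      have := (tendsto_inv_atTop_zero.comp (tendsto_natCast_atTop_atTop (R := ℝ))).mul_const C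
      simpa using this
    refine squeeze_zero' (Filter.Eventually.of_forall fun N => norm_nonneg _) ?_ h3
    filter_upwards [Filter.eventually_gt_atTop 0] with N hN
    have hN' : (0 : ℝ) < N := by exact_mod_cast hN
    have h4 : ((N : ℝ)⁻¹) • emb K (x N j) - y j
        = ((N : ℝ)⁻¹) • (emb K (x N j) - (N : ℝ) • y j) := by
      rw [smul_sub, smul_smul, inv_mul_cancel₀ hN'.ne', one_smul]
    rw [h4, norm_smul, Real.norm_of_nonneg (inv_nonneg.mpr hN'.le)]
    exact mul_le_mul_of_nonneg_left (hx2 N j) (inv_nonneg.mpr hN'.le)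
  have h5 := ((continuous_GG B).tendsto y).comp h2
  refine ge_of_tendsto h5 (Filter.Eventually.of_forall fun N => ?_)
  have h6 := GG_smul B ((N : ℝ)⁻¹) (fun j => emb K (x N j))
  have h7 := hpos (x N) (hx1 N)
  show 0 ≤ GG B fun j => ((N : ℝ)⁻¹) • emb K (x N j)
  have h8 : (fun j => ((N : ℝ)⁻¹) • emb K (x N j)) = ((N : ℝ)⁻¹) • (fun j => emb K (x N j)) := rfl
  rw [h8, h6]
  positivity

/-- The inclusion of a real place. -/
def iR (w : {w : InfinitePlace K // w.IsReal}) : ℝ →ₗ[ℝ] MS K :=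
  (LinearMap.inl ℝ _ _) ∘ₗ (LinearMap.single ℝ (fun _ => ℝ) w)

/-- The inclusion of a complex place. -/
def iC (w : {w : InfinitePlace K // w.IsComplex}) : ℂ →ₗ[ℝ] MS K :=
  (LinearMap.inr ℝ _ _) ∘ₗ (LinearMap.single ℝ (fun _ => ℂ) w)

theorem mul_iR (w : {w : InfinitePlace K // w.IsReal}) (x : MS K) (t : ℝ) :
    x * iR w t = iR w (x.1 w * t) := by
  refine Prod.ext (funext fun v => ?_) (funext fun v => ?_)
  · simp only [iR, LinearMap.coe_comp, Function.comp_apply, LinearMap.inl_apply,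
      LinearMap.single_apply, Prod.fst_mul, Pi.mul_apply]
    by_cases h : v = w
    · subst h; simp
    · simp [h]
  · simp [iR]

theorem mul_iC (w : {w : InfinitePlace K // w.IsComplex}) (x : MS K) (t : ℂ) :
    x * iC w t = iC w (x.2 w * t) := by
  refine Prod.ext (funext fun v => ?_) (funext fun v => ?_)
  · simp [iC]
  · simp only [iC, LinearMap.coe_comp, Function.comp_apply, LinearMap.inr_apply,
      LinearMap.single_apply, Prod.snd_mul, Pi.mul_apply]
    by_cases h : v = w
    · subst h; simp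
    · simp [h]

theorem decomp (x : MS K) : x = ∑ w, iR w (x.1 w) + ∑ w, iC w (x.2 w) := by
  refine Prod.ext (funext fun v => ?_) (funext fun v => ?_)
  · simp [iR, iC, Finset.sum_apply, Prod.fst_sum, Finset.sum_pi_single]
  · simp [iR, iC, Finset.sum_apply, Prod.snd_sum, Finset.sum_pi_single]

/-- One complex place. -/
theorem place_complex {n : ℕ} (a : Fin n → 𝓞 K)
    (B : Fin n → MS K →ₗ[ℝ] MS K →ₗ[ℝ] ℝ) (hB : ∑ i, B i = 0)
    (w : {w : InfinitePlace K // w.IsComplex})
    (h1 : ∀ i : Fin n, w.1 (a i : K) < ∑ j ∈ univ.erase i, w.1 (a j : K))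
    (hpos : ∀ y : Fin n → MS K, ∑ i, emb K (a i) * y i = 0 → 0 ≤ GG B y)
    (z : Fin n → ℂ) (hz : ∑ i, (emb K (a i)).2 w * z i = 0) :
    GG B (fun i => iC w (z i)) = 0 := by
  have hmem : ∀ z : Fin n → ℂ, ∑ i, (emb K (a i)).2 w * z i = 0 →
      ∑ i, emb K (a i) * iC w (z i) = 0 := by
    intro z hz
    simp only [mul_iC]
    rw [← map_sum, hz, map_zero]
  set α : Fin n → ℝ := fun i => B i (iC w 1) (iC w 1) + B i (iC w Complex.I) (iC w Complex.I)
    with hαdef
  have hexp : ∀ z : ℂ, iC w z = z.re • iC w 1 + z.im • iC w Complex.I := by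
    intro z
    rw [← map_smul, ← map_smul, ← map_add]
    congr 1
    apply Complex.ext <;> simp
  have hsum : ∀ z : Fin n → ℂ, GG B (fun i => iC w (z i)) + GG B (fun i => iC w (Complex.I * z i))
      = ∑ i, α i * ‖z i‖ ^ 2 := by
    intro z
    unfold GG
    rw [← Finset.sum_add_distrib]
    refine Finset.sum_congr rfl fun i _ => ?_
    beta_reduce
    rw [hexp (z i), hexp (Complex.I * z i), ← Complex.normSq_eq_norm_sq, Complex.normSq_apply]
    simp only [Complex.mul_re, Complex.mul_im, Complex.I_re, Complex.I_im, zero_mul, one_mul,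
      zero_sub, add_zero, zero_add, map_add, map_smul, LinearMap.add_apply, LinearMap.smul_apply,
      smul_eq_mul, hαdef]
    ring
  have hα0 : ∑ i, α i = 0 := by
    have h3 : ∀ x : MS K, ∑ i, B i x x = 0 := fun x => by
      have := congrArg (fun f : MS K →ₗ[ℝ] MS K →ₗ[ℝ] ℝ => f x x) hB
      simpa [LinearMap.sum_apply] using this
    simp only [hαdef, Finset.sum_add_distrib, h3, add_zero]
  have hnorm : ∀ i, w.1 (a i : K) = ‖(emb K (a i)).2 w‖ := fun i => by
    rw [← mixedEmbedding.normAtPlace_apply, mixedEmbedding.normAtPlace_apply_of_isComplex w.2]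
    rfl
  have hα := polygon (fun i => w.1 (a i : K)) α (fun i => apply_nonneg w.1 _) h1 hα0 (by
    intro y hy
    let z : Fin n → ℂ := fun i => if (emb K (a i)).2 w = 0 then (y i : ℂ) else
      (y i : ℂ) * (starRingEnd ℂ) ((emb K (a i)).2 w) / (‖(emb K (a i)).2 w‖ : ℂ)
    have hz1 : ∀ i, (emb K (a i)).2 w * z i = ((w.1 (a i : K) * y i : ℝ) : ℂ) := by
      intro i
      simp only [z]
      split_ifs with h
      · rw [hnorm i, h]; simp
      · have h4 : (‖(emb K (a i)).2 w‖ : ℂ) ≠ 0 :=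
          Complex.ofReal_ne_zero.mpr (norm_ne_zero_iff.mpr h)
        rw [hnorm i, ← mul_div_assoc, div_eq_iff h4]
        have h5 := Complex.mul_conj ((emb K (a i)).2 w)
        rw [Complex.normSq_eq_norm_sq] at h5
        push_cast at h5 ⊢
        linear_combination (y i : ℂ) * h5
    have hz2 : ∀ i, ‖z i‖ ^ 2 = y i ^ 2 := by
      intro i
      simp only [z]
      split_ifs with h
      · rw [Complex.norm_real, Real.norm_eq_abs, sq_abs]
      · rw [norm_div, norm_mul, RCLike.norm_conj, Complex.norm_real, Complex.norm_real,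
          norm_norm, mul_div_assoc, div_self (norm_ne_zero_iff.mpr h), mul_one,
          Real.norm_eq_abs, sq_abs]
    have hz3 : ∑ i, (emb K (a i)).2 w * z i = 0 := by
      rw [Finset.sum_congr rfl fun i _ => hz1 i, ← Complex.ofReal_sum, hy, Complex.ofReal_zero]
    have hz4 : ∑ i, (emb K (a i)).2 w * (Complex.I * z i) = 0 := by
      have : ∑ i, (emb K (a i)).2 w * (Complex.I * z i)
          = Complex.I * ∑ i, (emb K (a i)).2 w * z i := by
        rw [Finset.mul_sum]; exact Finset.sum_congr rfl fun i _ => by ring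
      rw [this, hz3, mul_zero]
    have h6 := hsum z
    have h7 := hpos _ (hmem _ hz3)
    have h8 := hpos _ (hmem _ hz4)
    have h9 : ∑ i, α i * y i ^ 2 = ∑ i, α i * ‖z i‖ ^ 2 :=
      Finset.sum_congr rfl fun i _ => by rw [hz2 i]
    rw [h9, ← h6]
    exact add_nonneg h7 h8)
  have h6 := hsum z
  have h7 := hpos _ (hmem _ hz)
  have h8 := hpos _ (hmem (fun i => Complex.I * z i) (by
    have : ∑ i, (emb K (a i)).2 w * (Complex.I * z i)
          = Complex.I * ∑ i, (emb K (a i)).2 w * z i := by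
        rw [Finset.mul_sum]; exact Finset.sum_congr rfl fun i _ => by ring
    rw [this, hz, mul_zero]))
  have h9 : ∑ i, α i * ‖z i‖ ^ 2 = 0 := Finset.sum_eq_zero fun i _ => by rw [hα i, zero_mul]
  rw [h9] at h6
  linarith

/-- One real place. -/
theorem place_real {n : ℕ} (a : Fin n → 𝓞 K)
    (B : Fin n → MS K →ₗ[ℝ] MS K →ₗ[ℝ] ℝ) (hB : ∑ i, B i = 0)
    (w : {w : InfinitePlace K // w.IsReal})
    (h1 : ∀ i : Fin n, w.1 (a i : K) < ∑ j ∈ univ.erase i, w.1 (a j : K))
    (hpos : ∀ y : Fin n → MS K, ∑ i, emb K (a i) * y i = 0 → 0 ≤ GG B y)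
    (z : Fin n → ℝ) :
    GG B (fun i => iR w (z i)) = 0 := by
  have hmem : ∀ z : Fin n → ℝ, ∑ i, (emb K (a i)).1 w * z i = 0 →
      ∑ i, emb K (a i) * iR w (z i) = 0 := by
    intro z hz
    simp only [mul_iR]
    rw [← map_sum, hz, map_zero]
  set α : Fin n → ℝ := fun i => B i (iR w 1) (iR w 1) with hαdef
  have hexp : ∀ z : ℝ, iR w z = z • iR w 1 := by
    intro z
    rw [← map_smul]; congr 1; simp
  have hsum : ∀ z : Fin n → ℝ, GG B (fun i => iR w (z i)) = ∑ i, α i * z i ^ 2 := by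
    intro z
    unfold GG
    refine Finset.sum_congr rfl fun i _ => ?_
    beta_reduce
    rw [hexp (z i)]
    simp only [map_smul, LinearMap.smul_apply, smul_eq_mul, hαdef]
    ring
  have hα0 : ∑ i, α i = 0 := by
    have := congrArg (fun f : MS K →ₗ[ℝ] MS K →ₗ[ℝ] ℝ => f (iR w 1) (iR w 1)) hB
    simpa [LinearMap.sum_apply] using this
  have hnorm : ∀ i, w.1 (a i : K) = |(emb K (a i)).1 w| := fun i => by
    rw [← mixedEmbedding.normAtPlace_apply, mixedEmbedding.normAtPlace_apply_of_isReal w.2]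
    rfl
  have hα := polygon (fun i => w.1 (a i : K)) α (fun i => apply_nonneg w.1 _) h1 hα0 (by
    intro y hy
    let z : Fin n → ℝ := fun i => if 0 ≤ (emb K (a i)).1 w then y i else - y i
    have hz1 : ∀ i, (emb K (a i)).1 w * z i = w.1 (a i : K) * y i := by
      intro i
      simp only [z]
      rw [hnorm i]
      split_ifs with h
      · rw [abs_of_nonneg h]
      · rw [abs_of_neg (not_le.mp h)]; ring
    have hz2 : ∀ i, z i ^ 2 = y i ^ 2 := by
      intro i
      simp only [z]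
      split_ifs with h
      · rfl
      · ring
    have hz3 : ∑ i, (emb K (a i)).1 w * z i = 0 := by
      rw [Finset.sum_congr rfl fun i _ => hz1 i, hy]
    have h6 := hsum z
    have h7 := hpos _ (hmem _ hz3)
    have h9 : ∑ i, α i * y i ^ 2 = ∑ i, α i * z i ^ 2 :=
      Finset.sum_congr rfl fun i _ => by rw [hz2 i]
    rw [h9, ← h6]
    exact h7)
  rw [hsum z]
  exact Finset.sum_eq_zero fun i _ => by rw [hα i, zero_mul]

/-- **Quadratic rigidity.** -/
theorem quad_zero {n : ℕ} (a : Fin n → 𝓞 K)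
    (h1 : ∀ v : InfinitePlace K, ∀ i : Fin n, v (a i : K) < ∑ j ∈ univ.erase i, v (a j : K))
    (B : Fin n → MS K →ₗ[ℝ] MS K →ₗ[ℝ] ℝ) (hB : ∑ i, B i = 0)
    (hpos : ∀ x : Fin n → 𝓞 K, ∑ i, a i * x i = 0 → 0 ≤ GG B fun i => emb K (x i))
    (x : Fin n → 𝓞 K) (hx : ∑ i, a i * x i = 0) : GG B (fun i => emb K (x i)) = 0 := by
  rcases n with _ | n
  · simp [GG]
  obtain ⟨w0⟩ := (inferInstance : Nonempty (InfinitePlace K))
  obtain ⟨m, ham⟩ : ∃ m, a m ≠ 0 := by
    by_contra hcon
    push Not at hcon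
    have h3 := h1 w0 0
    simp [hcon] at h3
  have hposR : ∀ y : Fin (n + 1) → MS K, ∑ i, emb K (a i) * y i = 0 → 0 ≤ GG B y :=
    fun y hy => GG_nonneg_real a m ham B hpos y hy
  -- the null vectors form a submonoid
  let Z : AddSubmonoid (Fin (n + 1) → MS K) :=
    { carrier := {y | ∑ i, emb K (a i) * y i = 0 ∧ GG B y = 0}
      zero_mem' := by
        refine ⟨by simp, by simp [GG]⟩
      add_mem' := by
        rintro u v ⟨hu1, hu2⟩ ⟨hv1, hv2⟩
        have h3 : ∑ i, emb K (a i) * (u + v) i = 0 := by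
          simp only [Pi.add_apply, mul_add, Finset.sum_add_distrib, hu1, hv1, add_zero]
        have h4 : ∑ i, emb K (a i) * (u - v) i = 0 := by
          simp only [Pi.sub_apply, mul_sub, Finset.sum_sub_distrib, hu1, hv1, sub_zero]
        refine ⟨h3, ?_⟩
        have h5 := GG_add_sub B u v
        have h6 := hposR _ h3
        have h7 := hposR _ h4
        rw [hu2, hv2] at h5
        linarith }
  set y : Fin (n + 1) → MS K := fun i => emb K (x i) with hy
  have hy0 : ∑ i, emb K (a i) * y i = 0 := by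
    have := congrArg (emb K) hx
    rw [map_sum, map_zero] at this
    simpa [hy, map_mul] using this
  have hyZ : y ∈ Z := by
    have h3 : y = ∑ w, (fun i => iR w ((y i).1 w)) + ∑ w, (fun i => iC w ((y i).2 w)) := by
      funext i
      rw [Pi.add_apply, Finset.sum_apply, Finset.sum_apply]
      exact decomp (y i)
    rw [h3]
    refine Z.add_mem (Z.sum_mem fun w _ => ?_) (Z.sum_mem fun w _ => ?_)
    · refine ⟨?_, place_real a B hB w (h1 w.1) hposR _⟩
      simp only [mul_iR]
      rw [← map_sum]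
      have h4 := congrArg (fun e : MS K => e.1 w) hy0
      simp only [Prod.fst_sum, Finset.sum_apply, Prod.fst_mul, Pi.mul_apply, Prod.fst_zero,
        Pi.zero_apply] at h4
      rw [h4, map_zero]
    · have h4 := congrArg (fun e : MS K => e.2 w) hy0
      simp only [Prod.snd_sum, Finset.sum_apply, Prod.snd_mul, Pi.mul_apply, Prod.snd_zero,
        Pi.zero_apply] at h4
      refine ⟨?_, place_complex a B hB w (h1 w.1) hposR _ h4⟩
      simp only [mul_iC]
      rw [← map_sum, h4, map_zero]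
  exact hyZ.2

end

end Pool.Agent.N836.SM
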