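import Mathlib
import Pool.Agent.N836.SM.Quad
import Pool.Agent.N836.SM.Cone
import Pool.Agent.N836.SM.Contr

/-!
# Gaussian weights with equal marginal forms
-/

set_option autoImplicit false
open scoped NumberField Classical NNReal
open NumberField Finset Module Module.Free

namespace Pool.Agent.N836.SM

noncomputable section

variable {K : Type} [Field K] [NumberField K]

/-- The index type of an integral basis. -/
abbrev IX (K : Type) [Field K] [NumberField K] := ChooseBasisIndex ℤ (𝓞 K)

/-- The integer points of the hyperplane. -/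
def HH {n : ℕ} (a : Fin n → 𝓞 K) : Submodule ℤ (Fin n → 𝓞 K) where
  carrier := {x | ∑ i, a i * x i = 0}
  zero_mem' := by simp
  add_mem' := by
    intro x y hx hy
    simp only [Set.mem_setOf_eq, Pi.add_apply, mul_add, Finset.sum_add_distrib] at *
    rw [hx, hy, add_zero]
  smul_mem' := by
    intro c x hx
    simp only [Set.mem_setOf_eq, Pi.smul_apply] at *
    have : ∑ i, a i * c • x i = c • ∑ i, a i * x i := by
      rw [Finset.smul_sum]
      exact Finset.sum_congr rfl fun i _ => by rw [mul_smul_comm]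
    rw [this, hx, smul_zero]

theorem mem_HH {n : ℕ} (a : Fin n → 𝓞 K) (x : Fin n → 𝓞 K) :
    x ∈ HH a ↔ ∑ i, a i * x i = 0 := Iff.rfl

/-- Outer product of the coordinates. -/
def outer : MS K →ₗ[ℝ] MS K →ₗ[ℝ] (IX K → IX K → ℝ) :=
  LinearMap.mk₂ ℝ (fun x y k l => (mixedEmbedding.latticeBasis K).repr x k *
    (mixedEmbedding.latticeBasis K).repr y l)
    (by intro x x' y; funext k l; simp [add_mul])
    (by intro c x y; funext k l; simp [mul_assoc])
    (by intro x y y'; funext k l; simp [mul_add])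
    (by intro c x y; funext k l; simp; ring)

theorem outer_apply (x y : MS K) (k l : IX K) :
    outer x y k l = (mixedEmbedding.latticeBasis K).repr x k *
      (mixedEmbedding.latticeBasis K).repr y l := rfl

/-- The differences of the outer squares. -/
def TT {n : ℕ} (i0 : Fin n) (x : Fin n → 𝓞 K) : Fin n → IX K → IX K → ℝ :=
  fun i => outer (emb K (x i)) (emb K (x i)) - outer (emb K (x i0)) (emb K (x i0))

theorem TT_functional {n : ℕ} (a : Fin n → 𝓞 K)
    (h1 : ∀ v : InfinitePlace K, ∀ i : Fin n, v (a i : K) < ∑ j ∈ univ.erase i, v (a j : K))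
    (i0 : Fin n) (ℓ : (Fin n → IX K → IX K → ℝ) →ₗ[ℝ] ℝ)
    (hℓ : ∀ x : HH a, 0 ≤ ℓ (TT i0 x.1)) (x : HH a) : ℓ (TT i0 x.1) = 0 := by
  let B' : Fin n → MS K →ₗ[ℝ] MS K →ₗ[ℝ] ℝ := fun i =>
    (outer (K := K)).compr₂ (ℓ ∘ₗ LinearMap.single ℝ (fun _ : Fin n => IX K → IX K → ℝ) i)
  let B : Fin n → MS K →ₗ[ℝ] MS K →ₗ[ℝ] ℝ := fun i => B' i - if i = i0 then ∑ j, B' j else 0
  have hB : ∑ i, B i = 0 := by
    refine LinearMap.ext fun x => LinearMap.ext fun y => ?_
    rw [LinearMap.sum_apply, LinearMap.sum_apply]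
    have e0 : ∀ i, B i x y = B' i x y - if i = i0 then ∑ j, B' j x y else 0 := by
      intro i
      simp only [B]
      split_ifs with h
      · simp [LinearMap.sum_apply]
      · simp
    rw [Finset.sum_congr rfl fun i _ => e0 i, Finset.sum_sub_distrib, Finset.sum_ite_eq',
      if_pos (Finset.mem_univ i0), sub_self]
    rfl
  have key : ∀ x : Fin n → 𝓞 K, ℓ (TT i0 x) = GG B (fun i => emb K (x i)) := by
    intro x
    have e1 : TT i0 x = ∑ i, LinearMap.single ℝ (fun _ : Fin n => IX K → IX K → ℝ) i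
        (outer (emb K (x i)) (emb K (x i)) - outer (emb K (x i0)) (emb K (x i0))) := by
      funext i
      simp [TT, Finset.sum_apply, LinearMap.single_apply, Finset.sum_pi_single]
    have e2 : GG B (fun i => emb K (x i)) = ∑ i, B' i (emb K (x i)) (emb K (x i))
        - ∑ j, B' j (emb K (x i0)) (emb K (x i0)) := by
      unfold GG
      simp only [B, LinearMap.sub_apply, Finset.sum_sub_distrib]
      congr 1
      rw [Finset.sum_eq_single i0]
      · simp [LinearMap.sum_apply]
      · intro b _ hb; simp [hb]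
      · intro h; exact absurd (Finset.mem_univ _) h
    rw [e1, e2, map_sum]
    simp only [map_sub, Finset.sum_sub_distrib]
    rfl
  rw [key]
  refine quad_zero a h1 B hB (fun y hy => ?_) x.1 x.2
  rw [← key]
  exact hℓ ⟨y, hy⟩

/-- **Weights.** -/
theorem exists_weights {n : ℕ} (a : Fin n → 𝓞 K)
    (h1 : ∀ v : InfinitePlace K, ∀ i : Fin n, v (a i : K) < ∑ j ∈ univ.erase i, v (a j : K))
    (i0 : Fin n) :
    ∃ (F : Finset (HH a)) (s : HH a → ℝ), (∀ x ∈ F, 0 < s x) ∧
      Submodule.span ℤ (F : Set (HH a)) = ⊤ ∧ ∑ x ∈ F, s x • TT i0 x.1 = 0 := by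
  obtain ⟨S0, hS0⟩ := (IsNoetherian.noetherian (⊤ : Submodule ℤ (HH a)))
  obtain ⟨c, hc⟩ := cone_coeff (fun x : HH a => TT i0 x.1)
    (fun ℓ hℓ x => TT_functional a h1 i0 ℓ hℓ x) (- ∑ x ∈ S0, TT i0 x.1)
    (Submodule.neg_mem _ (Submodule.sum_mem _ fun x _ => Submodule.subset_span ⟨x, rfl⟩))
  refine ⟨S0 ∪ c.support, fun x => (c x : ℝ) + if x ∈ S0 then 1 else 0, ?_, ?_, ?_⟩
  · intro x hx
    rcases Finset.mem_union.mp hx with h | h
    · simp only [h, if_true]
      have := (c x).2
      positivity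
    · have h2 : 0 < (c x : ℝ) := by
        have := Finsupp.mem_support_iff.mp h
        exact_mod_cast pos_iff_ne_zero.mpr this
      beta_reduce
      split_ifs <;> linarith
  · rw [eq_top_iff, ← hS0]
    exact Submodule.span_mono (by exact_mod_cast Finset.subset_union_left)
  · simp only [add_smul, Finset.sum_add_distrib]
    have e1 : ∑ x ∈ S0 ∪ c.support, (c x : ℝ) • TT i0 x.1 = - ∑ x ∈ S0, TT i0 x.1 := by
      rw [← hc, Finsupp.sum]
      refine (Finset.sum_subset Finset.subset_union_right fun x _ hx => ?_).symm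
      rw [Finsupp.notMem_support_iff.mp hx]
      simp
    have e2 : ∑ x ∈ S0 ∪ c.support, (if x ∈ S0 then (1:ℝ) else 0) • TT i0 x.1
        = ∑ x ∈ S0, TT i0 x.1 := by
      rw [← Finset.sum_subset (Finset.subset_union_left (s₁ := S0) (s₂ := c.support))
        (f := fun x => (if x ∈ S0 then (1:ℝ) else 0) • TT i0 x.1)]
      · exact Finset.sum_congr rfl fun x hx => by simp [hx]
      · intro x _ hx; simp [hx]
    rw [e1, e2, neg_add_cancel]

theorem repr_emb (x : 𝓞 K) (k : IX K) :
    (mixedEmbedding.latticeBasis K).repr (emb K x) k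
      = (((RingOfIntegers.basis K).repr x k : ℤ) : ℝ) := by
  rw [emb_apply, mixedEmbedding.latticeBasis_repr_apply]
  have h := integralBasis_repr_apply K x k
  rw [show ((x : K)) = algebraMap (𝓞 K) K x from rfl, h]
  simp

/-- **Rigidity** of the functions of polynomial growth. -/
theorem rigidity (hG : S_G) {n : ℕ} (a : Fin n → 𝓞 K)
    (h1 : ∀ v : InfinitePlace K, ∀ i : Fin n, v (a i : K) < ∑ j ∈ univ.erase i, v (a j : K))
    (hsurj : ∀ (i : Fin n) (r : 𝓞 K), ∃ x : Fin n → 𝓞 K, ∑ j, a j * x j = 0 ∧ x i = r)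
    (g : Fin n → 𝓞 K → ℝ)
    (hg : ∃ (C : ℝ) (D : ℕ), ∀ i r, |g i r| ≤ C * (1 + ‖emb K r‖) ^ D)
    (hsum : ∀ r, ∑ i, g i r = 0)
    (hpos : ∀ x : Fin n → 𝓞 K, ∑ i, a i * x i = 0 → 0 ≤ ∑ i, g i (x i))
    (x : Fin n → 𝓞 K) (hx : ∑ i, a i * x i = 0) : ∑ i, g i (x i) = 0 := by
  rcases n with _ | n
  · simp
  obtain ⟨F, s, hs, hspan, hF⟩ := exists_weights a h1 0
  set N := F.card with hN
  let eF : F ≃ Fin N := F.equivFin
  let c : Fin N → HH a := fun j => (eF.symm j).1
  let e : IX K ≃ Fin (Fintype.card (IX K)) := Fintype.equivFin (IX K)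
  let b := (RingOfIntegers.basis K).reindex e
  let φ : 𝓞 K ≃ₗ[ℤ] (Fin (Fintype.card (IX K)) → ℤ) := b.equivFun
  let P : Fin (n + 1) → Matrix (Fin (Fintype.card (IX K))) (Fin N) ℤ := fun i =>
    Matrix.of fun k j => φ ((c j).1 i) k
  have hPz : ∀ i (z : Fin N → ℤ), (P i).mulVec z = φ (∑ j, z j • (c j).1 i) := by
    intro i z
    funext k
    rw [map_sum, Finset.sum_apply]
    simp only [Matrix.mulVec, dotProduct, P, Matrix.of_apply, map_smul, Pi.smul_apply,
      smul_eq_mul]
    exact Finset.sum_congr rfl fun j _ => mul_comm _ _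
  have hgen : ∀ y : Fin (n + 1) → 𝓞 K, ∑ i, a i * y i = 0 →
      ∃ z : Fin N → ℤ, ∀ i, y i = ∑ j, z j • (c j).1 i := by
    intro y hy
    have h2 : (⟨y, hy⟩ : HH a) ∈ Submodule.span ℤ (F : Set (HH a)) := by
      rw [hspan]; exact Submodule.mem_top
    rw [Submodule.mem_span_finset'] at h2
    obtain ⟨f, hf⟩ := h2
    refine ⟨fun j => f (eF.symm j), fun i => ?_⟩
    have h3 := congrArg (fun w : HH a => w.1 i) hf
    simp only at h3
    rw [← h3]
    rw [Submodule.coe_sum, Finset.sum_apply]
    rw [← Equiv.sum_comp eF.symm]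
    rfl
  have hres := hG (n + 1) (Fintype.card (IX K)) N P (fun j => s (c j))
    (fun j => hs _ (eF.symm j).2)
    (by
      intro i r
      obtain ⟨y, hy1, hy2⟩ := hsurj i (φ.symm r)
      obtain ⟨z, hz⟩ := hgen y hy1
      refine ⟨z, ?_⟩
      rw [hPz, ← hz i, hy2, LinearEquiv.apply_symm_apply])
    (by
      -- the forms are equal
      have hform : ∀ (i : Fin (n + 1)) (χ : Fin (Fintype.card (IX K)) → ℝ),
          ∑ j, s (c j) * (∑ k, χ k * (P i k j : ℝ)) ^ 2
            = ∑ k : IX K, ∑ l : IX K, χ (e k) * χ (e l) *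
              ∑ x ∈ F, s x * outer (emb K (x.1 i)) (emb K (x.1 i)) k l := by
        intro i χ
        have e1 : ∀ j, ∑ k, χ k * (P i k j : ℝ)
            = ∑ k : IX K, χ (e k) * (mixedEmbedding.latticeBasis K).repr (emb K ((c j).1 i)) k := by
          intro j
          rw [← Equiv.sum_comp e]
          refine Finset.sum_congr rfl fun k _ => ?_
          rw [repr_emb]
          simp only [P, Matrix.of_apply, φ, b, Basis.equivFun_apply, Basis.repr_reindex_apply,
            Equiv.symm_apply_apply]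
        have e2 : ∑ j, s (c j) * (∑ k, χ k * (P i k j : ℝ)) ^ 2
            = ∑ x ∈ F, s x * (∑ k : IX K, χ (e k) *
              (mixedEmbedding.latticeBasis K).repr (emb K (x.1 i)) k) ^ 2 := by
          rw [← Finset.sum_coe_sort F, ← Equiv.sum_comp eF.symm]
          refine Finset.sum_congr rfl fun j _ => ?_
          rw [e1]
        rw [e2]
        have e3 : ∀ k l : IX K, χ (e k) * χ (e l) *
              ∑ x ∈ F, s x * outer (emb K (x.1 i)) (emb K (x.1 i)) k l
            = ∑ x ∈ F, s x * ((χ (e k) * (mixedEmbedding.latticeBasis K).repr (emb K (x.1 i)) k) *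
                (χ (e l) * (mixedEmbedding.latticeBasis K).repr (emb K (x.1 i)) l)) := by
          intro k l
          rw [Finset.mul_sum]
          refine Finset.sum_congr rfl fun x _ => ?_
          rw [outer_apply]; ring
        simp only [e3]
        rw [Finset.sum_congr rfl fun k _ => Finset.sum_comm, Finset.sum_comm]
        refine Finset.sum_congr rfl fun x _ => ?_
        rw [sq, Finset.sum_mul_sum, Finset.mul_sum]
        refine Finset.sum_congr rfl fun k _ => ?_
        rw [Finset.mul_sum]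
      have hcomp : ∀ (i : Fin (n + 1)) (k l : IX K),
          ∑ x ∈ F, s x * outer (emb K (x.1 i)) (emb K (x.1 i)) k l
            = ∑ x ∈ F, s x * outer (emb K (x.1 0)) (emb K (x.1 0)) k l := by
        intro i k l
        have h2 := congrArg (fun M : Fin (n + 1) → IX K → IX K → ℝ => M i k l) hF
        simp only [Finset.sum_apply, Pi.smul_apply, TT, Pi.sub_apply, smul_eq_mul, mul_sub,
          Finset.sum_sub_distrib, Pi.zero_apply] at h2
        linarith
      intro i i' χ
      rw [hform i χ, hform i' χ]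
      refine Finset.sum_congr rfl fun k _ => Finset.sum_congr rfl fun l _ => ?_
      rw [hcomp i k l, hcomp i' k l])
    (fun i r => g i (φ.symm r))
    (by
      obtain ⟨C, D, hCD⟩ := hg
      set M : ℝ := ∑ k, ‖emb K (b k)‖ with hM
      have hM0 : 0 ≤ M := Finset.sum_nonneg fun _ _ => norm_nonneg _
      refine ⟨|C| * (1 + M) ^ D, D, fun i r => (hCD i _).trans ?_⟩
      have h2 : ‖emb K (φ.symm r)‖ ≤ M * ‖r‖ := by
        have h3 : φ.symm r = ∑ k, r k • b k := by
          simp [φ, Basis.equivFun_symm_apply]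
        rw [h3, map_sum]
        calc ‖∑ k, emb K (r k • b k)‖ ≤ ∑ k, ‖emb K (r k • b k)‖ := norm_sum_le _ _
          _ ≤ ∑ k, ‖emb K (b k)‖ * ‖r‖ := by
              refine Finset.sum_le_sum fun k _ => ?_
              rw [map_zsmul]
              have h4 : ‖r k • emb K (b k)‖ ≤ ‖r k‖ * ‖emb K (b k)‖ := by
                rw [← Int.cast_smul_eq_zsmul ℝ, norm_smul, Int.norm_eq_abs, Real.norm_eq_abs]
              refine h4.trans ?_
              rw [mul_comm]
              exact mul_le_mul_of_nonneg_left (norm_le_pi_norm r k) (norm_nonneg _)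
          _ = M * ‖r‖ := by rw [hM, Finset.sum_mul]
      have h5 : (1 + ‖emb K (φ.symm r)‖) ^ D ≤ ((1 + M) * (1 + ‖r‖)) ^ D := by
        refine pow_le_pow_left₀ (by positivity) ?_ D
        nlinarith [norm_nonneg r]
      calc C * (1 + ‖emb K (φ.symm r)‖) ^ D ≤ |C| * (1 + ‖emb K (φ.symm r)‖) ^ D :=
            mul_le_mul_of_nonneg_right (le_abs_self C) (by positivity)
        _ ≤ |C| * ((1 + M) * (1 + ‖r‖)) ^ D :=
            mul_le_mul_of_nonneg_left h5 (abs_nonneg C)
        _ = |C| * (1 + M) ^ D * (1 + ‖r‖) ^ D := by rw [mul_pow, mul_assoc])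
    (fun r => hsum _)
    (by
      intro z
      simp only [hPz, LinearEquiv.symm_apply_apply]
      refine hpos (fun i => ∑ j, z j • (c j).1 i) ?_
      have h2 : (∑ j, z j • c j : HH a).1 = fun i => ∑ j, z j • (c j).1 i := by
        funext i
        rw [Submodule.coe_sum, Finset.sum_apply]
        rfl
      have h3 := (∑ j, z j • c j : HH a).2
      rw [mem_HH, h2] at h3
      exact h3)
  obtain ⟨z, hz⟩ := hgen x hx
  have h2 := hres z
  simp only [hPz, LinearEquiv.symm_apply_apply, ← hz] at h2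
  exact h2

end

end Pool.Agent.N836.SM
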