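import Mathlib
import Pool.Agent.N836.SM.Weights
import Pool.Agent.N836.SM.PartB
import Pool.Agent.N216.SM.LP
import Pool.Agent.N614.SM.A
import Pool.Agent.N9.SM.PartD
import Pool.Agent.N362.SM.G1
import Pool.Agent.N459.SM.G2

/-!
# Smyth's conjecture over number fields: assembly
-/

set_option autoImplicit false
open scoped NumberField
open NumberField

namespace Pool.Agent.N836.SM

theorem perm_of_map_eq {R : Type*} {N : ℕ} (f g : Fin N → R)
    (h : (Finset.univ.val.map f) = Finset.univ.val.map g) :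
    ∃ σ : Equiv.Perm (Fin N), ∀ k, f k = g (σ k) := by
  classical
  have hcard : ∀ r : R, Fintype.card {x // f x = r} = Fintype.card {x // g x = r} := by
    intro r
    have h1 := congrArg (Multiset.count r) h
    rw [Multiset.count_map, Multiset.count_map] at h1
    rw [Fintype.card_subtype, Fintype.card_subtype, Finset.card_def, Finset.card_def,
      Finset.filter_val, Finset.filter_val]
    simpa [eq_comm] using h1
  let e : ∀ r : R, {x // f x = r} ≃ {x // g x = r} := fun r => Fintype.equivOfCardEq (hcard r)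
  refine ⟨(Equiv.sigmaFiberEquiv f).symm.trans ((Equiv.sigmaCongrRight e).trans
    (Equiv.sigmaFiberEquiv g)), fun k => ?_⟩
  have := (e (f k) ⟨k, rfl⟩).2
  exact this.symm

theorem exists_conj (K : Type) [Field K] [NumberField K] (n : ℕ) (a : Fin n → 𝓞 K)
    (h1 : ∀ v : InfinitePlace K, ∀ i : Fin n,
      v (a i : K) < ∑ j ∈ Finset.univ.erase i, v (a j : K))
    (h2 : ∀ v : IsDedekindDomain.HeightOneSpectrum (𝓞 K), ∀ i : Fin n,
      ∃ j : Fin n, j ≠ i ∧ v.valuation K (a i : K) ≤ v.valuation K (a j : K)) :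
    ∃ α : Fin n → AlgebraicClosure K,
        (∀ i, α i ≠ 0) ∧ (∀ i j, minpoly K (α i) = minpoly K (α j)) ∧
        ∑ i, algebraMap K (AlgebraicClosure K) (a i : K) * α i = 0 := by
  classical
  rcases n with _ | n
  · exact ⟨fun i => 0, fun i => i.elim0, fun i => i.elim0, by simp⟩
  have h1' : ∀ v : InfinitePlace K, ∀ i : Fin (n + 1),
      v (a i : K) < ∑ j ∈ Finset.univ.erase i, v (a j : K) := by
    intro v i; convert h1 v i
  obtain ⟨θ, C, hθ, hcon⟩ := contraction a h1' h2
  have hS : S_G := Pool.Agent.N459.SM.partG2 Pool.Agent.N362.SM.partG1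
  obtain ⟨N, X, hX1, hX2, hX3⟩ := Pool.Agent.N216.SM.partLP (𝓞 K) (n + 1)
    (fun r => ‖emb K r‖) {x | ∑ i, a i * x i = 0}
    (fun ρ => finite_ball ρ) (fun r => norm_nonneg _)
    ⟨θ, C, hθ, fun i r => by
      obtain ⟨x, hx1, hx2, hx3⟩ := hcon i r
      exact ⟨x, hx1, hx2, hx3⟩⟩
    (by
      obtain ⟨x, hx1, hx2, -⟩ := hcon 0 1
      exact ⟨x, hx1, fun h => by rw [h] at hx2; exact zero_ne_one hx2⟩)
    (fun g hg hsum hpos x hx => rigidity hS a h1' (fun i r => by
      obtain ⟨x, hx1, hx2, -⟩ := hcon i r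
      exact ⟨x, hx1, hx2⟩) g hg hsum hpos x hx)
  choose π hπ using fun i => perm_of_map_eq (fun k => X k i) (fun k => X k 0) (hX3 i 0)
  refine Pool.Agent.N9.SM.partD K (n + 1) N (fun i => (a i : K)) (fun k => (X k 0 : K)) ?_ π ?_
  · intro h0
    obtain ⟨k, hk⟩ := hX2
    apply hk
    funext i
    have h3 := hπ i k
    have h4 := congrFun h0 (π i k)
    simp only [Pi.zero_apply] at h4
    rw [h3]
    exact RingOfIntegers.coe_eq_zero_iff.mp h4
  · intro k
    have h3 : ∑ i, a i * X k i = 0 := hX1 k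
    have h4 := congrArg (algebraMap (𝓞 K) K) h3
    rw [map_sum, map_zero] at h4
    rw [← h4]
    refine Finset.sum_congr rfl fun i _ => ?_
    rw [map_mul]
    have h5 : X k i = X (π i k) 0 := hπ i k
    rw [h5]

end Pool.Agent.N836.SM
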